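import Pool.Agent.TH546.SG.Poly
import Pool.Agent.TH546.L2.Fin2

/-! # The exponent `2` -/

set_option autoImplicit false

namespace Pool.Agent.TH546.SG

theorem CU2 : CU 2 := CU_of Pool.Agent.TH546.L2.sq_upper2

theorem PLo2 : PLo 2 := by
  obtain ⟨K, hK, h⟩ := Pool.Agent.TH546.L2.sq_PP2
  exact ⟨K, hK, fun N hN => (h N hN).1⟩

end Pool.Agent.TH546.SG
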