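import Pool.Agent.TH546.SG.Num

/-! # Averages and entropies over the pieces of a walk, with a general exponent -/

set_option autoImplicit false

namespace Pool.Agent.TH546.SG

open scoped Classical
open Pool.Agent.W840.CT
open Pool.Agent.TH546.SAW hiding avg avg2 entropy variational transfer

/-- the main average inequality: one constant for all `n ≥ m` -/
theorem avg {p : ℕ} (hcu : CU p) : ∃ K : ℝ, 0 ≤ K ∧ ∀ m n : ℕ, 2 ≤ m → m ≤ n →
    ∀ g : ℕ → (Fin (m + 1) → ℤ × ℤ) → ℝ, (∀ i v, 0 ≤ g i v) →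
    (∀ i, i + m ≤ n → ∀ ω ∈ W n, 0 < g i (pc i m ω)) →
    ∑ i ∈ Finset.range (n + 1 - m), ∑ ω ∈ W n, Real.log (g i (pc i m ω)) ≤
      cn n * (∑ i ∈ Finset.range (n + 1 - m),
        (Real.log (∑ v ∈ W m, g i v) - m * Real.log H981.mu) + 2 * K * m * Real.log m ^ p) := by
  obtain ⟨K, hK, hu⟩ := hcu
  refine ⟨K, hK, fun m n hm hmn g hg hpos => ?_⟩
  have hm1 : 1 ≤ m := by omega
  have hcn : (0 : ℝ) < cn n := lt_of_lt_of_le one_pos (cn_pos n)
  have hmu := mu_pos
  have hlogc : ∀ k ≤ m, Real.log (cn k) ≤ k * Real.log H981.mu + K * Real.log m ^ p := by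
    intro k hk
    have h1 := hu m hm k hk
    have h2 : (0 : ℝ) < cn k := lt_of_lt_of_le one_pos (cn_pos k)
    have h3 := Real.log_le_log h2 h1
    rw [Real.log_mul (by positivity) (Real.exp_pos _).ne', Real.log_exp, Real.log_pow] at h3
    exact h3
  have hlogn : n * Real.log H981.mu ≤ Real.log (cn n) := by
    have h1 := Real.log_le_log (by positivity) (mu_pow_le_cn n)
    rwa [Real.log_pow] at h1
  -- a residue class
  have hres : ∀ j ∈ Finset.range m,
      ∑ k ∈ Finset.range ((n - j) / m), ∑ ω ∈ W n, Real.log (g (j + k * m) (pc (j + k * m) m ω)) ≤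
      cn n * (∑ k ∈ Finset.range ((n - j) / m),
        (Real.log (∑ v ∈ W m, g (j + k * m) v) - m * Real.log H981.mu) +
          2 * K * Real.log m ^ p) := by
    intro j hj
    rw [Finset.mem_range] at hj
    set N := (n - j) / m with hN
    set r := (n - j) % m with hr
    have hrm : r < m := Nat.mod_lt _ hm1
    have hn : n = j + N * m + r := by
      have := Nat.div_add_mod (n - j) m
      rw [← hN, ← hr, mul_comm] at this
      omega
    have hk : ∀ k ∈ Finset.range N, j + k * m + m ≤ n := by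
      intro k hk
      rw [Finset.mem_range] at hk
      have : (k + 1) * m ≤ N * m := Nat.mul_le_mul_right _ hk
      rw [add_mul, one_mul] at this
      omega
    have hZ : ∀ k ∈ Finset.range N, 0 < ∑ v ∈ W m, g (j + k * m) v := by
      intro k hkN
      obtain ⟨ω, hω⟩ := W_nonempty n
      refine Finset.sum_pos' (fun v _ => hg _ v) ⟨pc (j + k * m) m ω, ?_, ?_⟩
      · exact mem_W.2 (pc_mem (mem_W.1 hω) (hk k hkN))
      · exact hpos _ (hk k hkN) ω hω
    have h1 := sum_prod j m r (fun k v => g (j + k * m) v) (fun k v => hg _ v) N n hn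
    have h2 := jensen (W n) (W_nonempty n)
      (fun ω => ∏ k ∈ Finset.range N, g (j + k * m) (pc (j + k * m) m ω))
      (fun ω hω => Finset.prod_pos (fun k hkN => hpos _ (hk k hkN) ω hω)) h1
    have h3 : ∑ ω ∈ W n, Real.log (∏ k ∈ Finset.range N, g (j + k * m) (pc (j + k * m) m ω)) =
        ∑ k ∈ Finset.range N, ∑ ω ∈ W n, Real.log (g (j + k * m) (pc (j + k * m) m ω)) := by
      rw [Finset.sum_comm]
      refine Finset.sum_congr rfl (fun ω hω => ?_)
      exact Real.log_prod (fun k hkN => (hpos _ (hk k hkN) ω hω).ne')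
    rw [h3, card_W] at h2
    refine h2.trans (mul_le_mul_of_nonneg_left ?_ hcn.le)
    have hcj : (0 : ℝ) < cn j := lt_of_lt_of_le one_pos (cn_pos j)
    have hcr : (0 : ℝ) < cn r := lt_of_lt_of_le one_pos (cn_pos r)
    have hP : (0 : ℝ) < ∏ k ∈ Finset.range N, ∑ v ∈ W m, g (j + k * m) v :=
      Finset.prod_pos hZ
    rw [Real.log_mul (by positivity) hcr.ne', Real.log_mul hcj.ne' hP.ne',
      Real.log_prod (fun k hkN => (hZ k hkN).ne'), Finset.sum_sub_distrib, Finset.sum_const,
      Finset.card_range, nsmul_eq_mul]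
    have h4 := hlogc j hj.le
    have h5 := hlogc r hrm.le
    have h6 : (n : ℝ) = j + N * m + r := by exact_mod_cast hn
    rw [h6] at hlogn
    linarith
  rw [sum_residue m n hm1, sum_residue m n hm1]
  refine (Finset.sum_le_sum hres).trans ?_
  rw [← Finset.mul_sum, Finset.sum_add_distrib, Finset.sum_const, Finset.card_range,
    nsmul_eq_mul]
  refine mul_le_mul_of_nonneg_left (le_of_eq ?_) hcn.le
  ring


/-- the average inequality with a uniform bound for the partition functions -/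
theorem avg2 {p : ℕ} (hcu : CU p) : ∃ K : ℝ, 0 ≤ K ∧ ∀ m n : ℕ, 2 ≤ m → m ≤ n →
    ∀ g : ℕ → (Fin (m + 1) → ℤ × ℤ) → ℝ, (∀ i v, 0 ≤ g i v) →
    (∀ i, i + m ≤ n → ∀ ω ∈ W n, 0 < g i (pc i m ω)) →
    ∀ b : ℝ, 0 ≤ b →
    (∀ i, i + m ≤ n → Real.log (∑ v ∈ W m, g i v) ≤ m * Real.log H981.mu + b) →
    ∑ i ∈ Finset.range (n + 1 - m), ∑ ω ∈ W n, Real.log (g i (pc i m ω)) ≤
      cn n * (n * (b + K * Real.log m ^ p)) := by
  obtain ⟨K, hK, h⟩ := avg hcu
  refine ⟨2 * K, by positivity, fun m n hm hmn g hg hpos b hb hZ => ?_⟩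
  have h1 := log_ge hm
  have hLPm := LP_nonneg p m
  refine (h m n hm hmn g hg hpos).trans (mul_le_mul_of_nonneg_left ?_ (Nat.cast_nonneg _))
  have h3 : ∑ i ∈ Finset.range (n + 1 - m),
      (Real.log (∑ v ∈ W m, g i v) - m * Real.log H981.mu) ≤
      ∑ _i ∈ Finset.range (n + 1 - m), b := by
    refine Finset.sum_le_sum (fun i hi => ?_)
    rw [Finset.mem_range] at hi
    have := hZ i (by omega)
    linarith
  rw [Finset.sum_const, Finset.card_range, nsmul_eq_mul] at h3
  have h4 : (((n + 1 - m : ℕ)) : ℝ) ≤ n := by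
    exact_mod_cast (show n + 1 - m ≤ n by omega)
  have h5 : (m : ℝ) ≤ n := by exact_mod_cast hmn
  have h6 : (((n + 1 - m : ℕ)) : ℝ) * b ≤ n * b := mul_le_mul_of_nonneg_right h4 hb
  have h7 : 2 * K * m * Real.log m ^ p ≤ 2 * K * n * Real.log m ^ p := by gcongr
  linarith

/-- the relative entropy of the pieces -/
theorem entropy {p : ℕ} (hp : 1 ≤ p) (hcu : CU p) : ∃ K : ℝ, 0 ≤ K ∧ ∀ m j n : ℕ, 2 ≤ m → 1 ≤ j → j * m ≤ n →
    ∑ i ∈ Finset.range (n + 1 - j * m), ∑ v ∈ W (j * m),
      law n i (j * m) v * Real.log (law n i (j * m) v * (cn m : ℝ) ^ j) ≤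
      K * j * n * Real.log m ^ p := by
  obtain ⟨K, hK, h⟩ := avg hcu
  obtain ⟨K', hK', hu⟩ := hcu
  have hcP := one_le_cP p
  refine ⟨K' + 2 * K * cP p, by positivity, fun m j n hm hj hn => ?_⟩
  have h1 := log_ge hm
  have hLPm := LP_nonneg p m
  have hj' : (1 : ℝ) ≤ j := by exact_mod_cast hj
  set M := j * m with hM
  have hM2 : 2 ≤ M := by
    have : 1 * m ≤ j * m := Nat.mul_le_mul_right _ hj
    omega
  have hcn : (0 : ℝ) < cn n := lt_of_lt_of_le one_pos (cn_pos n)
  have hcm : (0 : ℝ) < cn m := lt_of_lt_of_le one_pos (cn_pos m)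
  have hmu := mu_pos
  have h3 := h M n hM2 hn (fun i v => law n i M v) (fun i v => law_nonneg _ _ _ _) (by
    intro i hi ω hω
    unfold law
    refine div_pos ?_ hcn
    rw [Nat.cast_pos, Finset.card_pos]
    exact ⟨ω, Finset.mem_filter.2 ⟨hω, rfl⟩⟩)
  have hlogc : Real.log (cn m) ≤ m * Real.log H981.mu + K' * Real.log m ^ p := by
    have h4 := Real.log_le_log hcm (hu m hm m le_rfl)
    rw [Real.log_mul (by positivity) (Real.exp_pos _).ne', Real.log_exp, Real.log_pow] at h4
    exact h4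
  have h5 : ∀ i ∈ Finset.range (n + 1 - M), ∑ v ∈ W M,
      law n i M v * Real.log (law n i M v * (cn m : ℝ) ^ j) =
      (∑ ω ∈ W n, Real.log (law n i M (pc i M ω))) / cn n + j * Real.log (cn m) := by
    intro i hi
    rw [Finset.mem_range] at hi
    have e1 : ∀ v ∈ W M, law n i M v * Real.log (law n i M v * (cn m : ℝ) ^ j) =
        law n i M v * Real.log (law n i M v) + law n i M v * (j * Real.log (cn m)) := by
      intro v _
      rcases eq_or_ne (law n i M v) 0 with h0 | h0
      · rw [h0]; simp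
      · rw [Real.log_mul h0 (by positivity), Real.log_pow]
        ring
    rw [Finset.sum_congr rfl e1, Finset.sum_add_distrib,
      sum_law_mul (by omega) (fun v => Real.log (law n i M v)), ← Finset.sum_mul,
      sum_law (by omega), one_mul]
  rw [Finset.sum_congr rfl h5, Finset.sum_add_distrib, Finset.sum_const, Finset.card_range,
    nsmul_eq_mul, ← Finset.sum_div]
  have h6 : ∑ i ∈ Finset.range (n + 1 - M), (Real.log (∑ v ∈ W M, law n i M v) -
      M * Real.log H981.mu) = ∑ _i ∈ Finset.range (n + 1 - M), (-(M * Real.log H981.mu)) := by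
    refine Finset.sum_congr rfl (fun i hi => ?_)
    rw [Finset.mem_range] at hi
    rw [sum_law (by omega), Real.log_one, zero_sub]
  rw [h6, Finset.sum_const, Finset.card_range, nsmul_eq_mul] at h3
  have h7 : (∑ i ∈ Finset.range (n + 1 - M), ∑ ω ∈ W n, Real.log (law n i M (pc i M ω))) / cn n ≤
      ((n + 1 - M : ℕ) : ℝ) * (-(M * Real.log H981.mu)) + 2 * K * M * Real.log M ^ p := by
    rw [div_le_iff₀ hcn, mul_comm _ (cn n : ℝ)]
    exact h3
  have h8 : Real.log M ^ p ≤ cP p * j * Real.log m ^ p := log_mul_pow_le' hp hm hj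
  have h9 : (((n + 1 - M : ℕ)) : ℝ) ≤ n := by
    exact_mod_cast (show n + 1 - M ≤ n by omega)
  have h10 : (M : ℝ) ≤ n := by exact_mod_cast hn
  have h11 : (M : ℝ) = j * m := by rw [hM]; push_cast; ring
  have h12 : (((n + 1 - M : ℕ)) : ℝ) * (j * Real.log (cn m)) ≤
      (((n + 1 - M : ℕ)) : ℝ) * (j * (m * Real.log H981.mu + K' * Real.log m ^ p)) := by
    gcongr
  have h13 : 2 * K * M * Real.log M ^ p ≤ 2 * K * n * (cP p * j * Real.log m ^ p) := by
    gcongr
  have h14 : (((n + 1 - M : ℕ)) : ℝ) * (j * (K' * Real.log m ^ p)) ≤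
      n * (j * (K' * Real.log m ^ p)) := by
    gcongr
  have h15 : (((n + 1 - M : ℕ)) : ℝ) * (-(M * Real.log H981.mu)) +
      (((n + 1 - M : ℕ)) : ℝ) * (j * (m * Real.log H981.mu + K' * Real.log m ^ p)) =
      (((n + 1 - M : ℕ)) : ℝ) * (j * (K' * Real.log m ^ p)) := by
    rw [h11]; ring
  nlinarith

/-- the variational form -/
theorem variational {p : ℕ} (hcu : CU p) : ∃ K : ℝ, 0 ≤ K ∧ ∀ m n : ℕ, 2 ≤ m → m ≤ n →
    ∀ f : ℕ → (Fin (m + 1) → ℤ × ℤ) → ℝ,
    ∑ i ∈ Finset.range (n + 1 - m), (∑ ω ∈ W n, f i (pc i m ω)) / cn n ≤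
      ∑ i ∈ Finset.range (n + 1 - m), Real.log ((∑ v ∈ W m, Real.exp (f i v)) / cn m) +
        K * n * Real.log m ^ p := by
  obtain ⟨K, hK, h⟩ := avg hcu
  obtain ⟨K', hK', hu⟩ := hcu
  refine ⟨2 * K + K', by positivity, fun m n hm hmn f => ?_⟩
  have h1 := log_ge hm
  have hLPm := LP_nonneg p m
  have hcn : (0 : ℝ) < cn n := lt_of_lt_of_le one_pos (cn_pos n)
  have hcm : (0 : ℝ) < cn m := lt_of_lt_of_le one_pos (cn_pos m)
  have hmu := mu_pos
  have hlogc : Real.log (cn m) ≤ m * Real.log H981.mu + K' * Real.log m ^ p := by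
    have h4 := Real.log_le_log hcm (hu m hm m le_rfl)
    rw [Real.log_mul (by positivity) (Real.exp_pos _).ne', Real.log_exp, Real.log_pow] at h4
    exact h4
  have h3 := h m n hm hmn (fun i v => Real.exp (f i v)) (fun i v => (Real.exp_pos _).le)
    (fun i hi ω hω => Real.exp_pos _)
  simp only [Real.log_exp] at h3
  have h4 : ∀ i ∈ Finset.range (n + 1 - m),
      Real.log (∑ v ∈ W m, Real.exp (f i v)) - m * Real.log H981.mu ≤
      Real.log ((∑ v ∈ W m, Real.exp (f i v)) / cn m) + K' * Real.log m ^ p := by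
    intro i _
    have h5 : 0 < ∑ v ∈ W m, Real.exp (f i v) :=
      Finset.sum_pos (fun v _ => Real.exp_pos _) (W_nonempty m)
    rw [Real.log_div h5.ne' hcm.ne']
    linarith
  have h5 := Finset.sum_le_sum h4
  rw [Finset.sum_add_distrib, Finset.sum_const, Finset.card_range, nsmul_eq_mul] at h5
  have h6 : (((n + 1 - m : ℕ)) : ℝ) ≤ n := by
    exact_mod_cast (show n + 1 - m ≤ n by omega)
  have h7 : (m : ℝ) ≤ n := by exact_mod_cast hmn
  rw [← Finset.sum_div, div_le_iff₀ hcn, mul_comm _ (cn n : ℝ)]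
  refine h3.trans (mul_le_mul_of_nonneg_left ?_ hcn.le)
  have h8 : (((n + 1 - m : ℕ)) : ℝ) * (K' * Real.log m ^ p) ≤ n * (K' * Real.log m ^ p) := by
    gcongr
  have h9 : 2 * K * m * Real.log m ^ p ≤ 2 * K * n * Real.log m ^ p := by gcongr
  linarith

/-- transfer of rare events -/
theorem transfer {p : ℕ} (hcu : CU p) : ∃ K : ℝ, 0 ≤ K ∧ ∀ m n : ℕ, 2 ≤ m → m ≤ n →
    ∀ (E : ℕ → Set (Fin (m + 1) → ℤ × ℤ)) (x : ℝ), 0 ≤ x →
    (∀ i, i + m ≤ n → (((W m).filter (fun v => v ∈ E i)).card : ℝ) ≤ Real.exp (-x) * cn m) →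
    x * ∑ i ∈ Finset.range (n + 1 - m), (((W n).filter (fun ω => pc i m ω ∈ E i)).card : ℝ) ≤
      K * n * Real.log m ^ p * cn n := by
  obtain ⟨K, hK, h⟩ := avg2 hcu
  obtain ⟨K', hK', hu⟩ := hcu
  refine ⟨K + K' + (3 / 2) ^ p, by positivity, fun m n hm hmn E x hx hE => ?_⟩
  have hone := one_le_LP p hm
  have h1 := log_ge hm
  have hLPm := LP_nonneg p m
  have hcn : (0 : ℝ) < cn n := lt_of_lt_of_le one_pos (cn_pos n)
  have hcm : (0 : ℝ) < cn m := lt_of_lt_of_le one_pos (cn_pos m)
  have hmu := mu_pos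
  have hlogc : Real.log (cn m) ≤ m * Real.log H981.mu + K' * Real.log m ^ p := by
    have h4 := Real.log_le_log hcm (hu m hm m le_rfl)
    rw [Real.log_mul (by positivity) (Real.exp_pos _).ne', Real.log_exp, Real.log_pow] at h4
    exact h4
  have h3 := h m n hm hmn (fun i v => if v ∈ E i then Real.exp x else 1)
    (fun i v => by
      show (0 : ℝ) ≤ if v ∈ E i then Real.exp x else 1
      split_ifs
      · exact (Real.exp_pos _).le
      · exact zero_le_one)
    (fun i hi ω hω => by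
      show (0 : ℝ) < if pc i m ω ∈ E i then Real.exp x else 1
      split_ifs
      · exact Real.exp_pos _
      · exact one_pos)
    (Real.log 2 + K' * Real.log m ^ p)
    (by have := log_two_bd.1; positivity) (by
      intro i hi
      have h4 : ∑ v ∈ W m, (if v ∈ E i then Real.exp x else 1) ≤ 2 * (cn m : ℝ) := by
        calc ∑ v ∈ W m, (if v ∈ E i then Real.exp x else 1)
            ≤ ∑ v ∈ W m, ((if v ∈ E i then Real.exp x else 0) + 1) := by
              refine Finset.sum_le_sum (fun v _ => ?_)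
              split_ifs
              · linarith
              · linarith
          _ = Real.exp x * (((W m).filter (fun v => v ∈ E i)).card : ℝ) + cn m := by
              rw [Finset.sum_add_distrib, ← Finset.sum_filter]
              simp only [Finset.sum_const, nsmul_eq_mul, mul_one]
              rw [card_W, mul_comm]
          _ ≤ Real.exp x * (Real.exp (-x) * cn m) + cn m := by
              have := hE i hi
              gcongr
          _ = 2 * (cn m : ℝ) := by
              rw [← mul_assoc, ← Real.exp_add, add_neg_cancel, Real.exp_zero]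
              ring
      have h5 : 0 < ∑ v ∈ W m, (if v ∈ E i then Real.exp x else 1) := by
        refine Finset.sum_pos (fun v _ => ?_) (W_nonempty m)
        split_ifs
        · exact Real.exp_pos _
        · exact one_pos
      have h6 := Real.log_le_log h5 h4
      rw [Real.log_mul (by norm_num) hcm.ne'] at h6
      linarith)
  have h7 : ∀ i ∈ Finset.range (n + 1 - m), ∑ ω ∈ W n,
      Real.log (if pc i m ω ∈ E i then Real.exp x else 1) =
      x * (((W n).filter (fun ω => pc i m ω ∈ E i)).card : ℝ) := by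
    intro i _
    have h8 : ∀ ω ∈ W n, Real.log (if pc i m ω ∈ E i then Real.exp x else 1) =
        if pc i m ω ∈ E i then x else 0 := by
      intro ω _
      split_ifs
      · rw [Real.log_exp]
      · rw [Real.log_one]
    rw [Finset.sum_congr rfl h8, ← Finset.sum_filter, Finset.sum_const, nsmul_eq_mul, mul_comm]
  rw [Finset.sum_congr rfl h7, ← Finset.mul_sum] at h3
  refine h3.trans ?_
  have h9 : Real.log 2 + K' * Real.log m ^ p + K * Real.log m ^ p ≤
      (K + K' + (3 / 2) ^ p) * Real.log m ^ p := by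
    have := log_two_bd.2
    nlinarith
  calc (cn n : ℝ) * (n * (Real.log 2 + K' * Real.log m ^ p + K * Real.log m ^ p))
      ≤ (cn n : ℝ) * (n * ((K + K' + (3 / 2) ^ p) * Real.log m ^ p)) := by gcongr
    _ = _ := by ring



end Pool.Agent.TH546.SG
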