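import Pool.Agent.TH546.SG.Ent

/-! # Loops closed by the contacts of a walk, with a general exponent -/

set_option autoImplicit false

namespace Pool.Agent.TH546.SG

open scoped Classical
open Pool.Agent.W840.CT hiding tail_all
open Pool.Agent.TH546.SAW hiding avg avg2 entropy variational transfer window_mean max_mean
  loop_mean far_mean

theorem tail_all {p : ℕ} (hp : 1 ≤ p) (hcu : CU p) : ∃ K : ℝ, 0 < K ∧ ∀ N : ℕ, 2 ≤ N → ∀ x : ℝ, 0 ≤ x →
    (({ω | SW N ω ∧ ∃ t, K * (Real.log N ^ p + x) < TT N t ω} :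
      Set (Fin (N + 1) → ℤ × ℤ)).ncard : ℝ) ≤ Real.exp (-x) * cn N := by
  obtain ⟨K, hK, h⟩ := hcu
  refine ⟨294912 * (12 * (3 / 2) ^ p + 2 * K + 1), by positivity, fun N hN x hx => ?_⟩
  set L := Real.log N with hL
  set E : ℝ := (3 / 2) ^ p with hE
  have hE1 : 1 ≤ E := one_le_pow₀ (by norm_num)
  have hN' : (2 : ℝ) ≤ N := by exact_mod_cast hN
  have hlogN : (0.69 : ℝ) < L := log_ge hN
  have hLP0 : (0 : ℝ) ≤ L ^ p := by positivity
  have hone1 : (1 : ℝ) ≤ E * L ^ p := one_le_LP p hN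
  have hLL : L ≤ E * L ^ p := by
    rw [hE, ← mul_pow]
    have h1 : (1 : ℝ) ≤ 3 / 2 * L := by linarith
    calc L ≤ 3 / 2 * L := by linarith
      _ = (3 / 2 * L) ^ 1 := (pow_one _).symm
      _ ≤ (3 / 2 * L) ^ p := pow_le_pow_right₀ h1 hp
  have hlogA : Real.log (1152 * ((N : ℝ) + 1)) ≤ 10 * (E * L ^ p) := by
    rw [Real.log_mul (by norm_num) (by positivity)]
    have h1 : Real.log 1152 ≤ 7.7 := by
      calc Real.log 1152 ≤ Real.log (2 ^ 11) := Real.log_le_log (by norm_num) (by norm_num)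
        _ = 11 * Real.log 2 := by rw [Real.log_pow]; norm_num
        _ ≤ 7.7 := by
            have := Real.log_two_lt_d9
            linarith
    have h2 : Real.log ((N : ℝ) + 1) ≤ 2 * L := by
      calc Real.log ((N : ℝ) + 1) ≤ Real.log ((N : ℝ) ^ 2) :=
            Real.log_le_log (by positivity) (by nlinarith)
        _ = 2 * L := by rw [Real.log_pow, hL]; norm_num
    linarith
  set y := x + Real.log (1152 * ((N : ℝ) + 1)) + 2 * (K * L ^ p) with hy
  set r := ⌈y⌉₊ with hr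
  have hy0 : 0 ≤ y := by
    have : 0 ≤ Real.log (1152 * ((N : ℝ) + 1)) := Real.log_nonneg (by nlinarith)
    positivity
  have hr1 : (r : ℝ) ≤ y + 1 := (Nat.ceil_lt_add_one hy0).le
  have hr2 : y ≤ r := Nat.le_ceil _
  have hthr : (294912 : ℝ) * r + 204 ≤ 294912 * (12 * E + 2 * K + 1) * (L ^ p + x) := by
    have h1 : (294912 : ℝ) * r + 204 ≤ 294912 * (x + 10 * (E * L ^ p) + 2 * (K * L ^ p) + 1) + 204 := by
      nlinarith
    have h2 : (0 : ℝ) ≤ K * x := by positivity
    have h3 : (0 : ℝ) ≤ K * L ^ p := by positivity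
    have h4 : (0 : ℝ) ≤ E * x := by positivity
    have h5 : 294912 * (12 * E + 2 * K + 1) * (L ^ p + x) = 294912 * (12 * (E * L ^ p) +
      2 * (K * L ^ p) + L ^ p + 12 * (E * x) + 2 * (K * x) + x) := by ring
    rw [h5]
    linarith
  -- the union bound
  have hone : ∀ t ∈ Finset.range (N + 1),
      (({ω | SW N ω ∧ 294912 * r + 204 ≤ TT N t ω} :
        Set (Fin (N + 1) → ℤ × ℤ)).ncard : ℝ) ≤
      Real.exp (-(r : ℝ)) * (1152 * (Real.exp (2 * (K * L ^ p)) * cn N)) := by
    intro t ht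
    rw [Finset.mem_range] at ht
    have h1 := TT_count N t r (by omega)
    have h2 : (4 : ℝ) ^ r * (({ω | SW N ω ∧ 294912 * r + 204 ≤ TT N t ω} :
        Set (Fin (N + 1) → ℤ × ℤ)).ncard : ℝ) ≤ 1152 * ((cn t : ℝ) * cn (N - t)) := by
      exact_mod_cast h1
    have h3 := h N hN t (by omega)
    have h4 := h N hN (N - t) (by omega)
    have h5 : (cn t : ℝ) * cn (N - t) ≤ Real.exp (2 * (K * L ^ p)) * cn N := by
      calc (cn t : ℝ) * cn (N - t) ≤ (H981.mu ^ t * Real.exp (K * L ^ p)) *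
            (H981.mu ^ (N - t) * Real.exp (K * L ^ p)) := by
              refine mul_le_mul h3 h4 (by positivity) ?_
              have := mu_pos
              positivity
        _ = Real.exp (2 * (K * L ^ p)) * H981.mu ^ (t + (N - t)) := by
            rw [two_mul, Real.exp_add, pow_add]; ring
        _ = Real.exp (2 * (K * L ^ p)) * H981.mu ^ N := by
            rw [show t + (N - t) = N by omega]
        _ ≤ _ := mul_le_mul_of_nonneg_left (mu_pow_le_cn N) (Real.exp_pos _).le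
    have h6 := four_pow_ge r
    have h7 : Real.exp r * (({ω | SW N ω ∧ 294912 * r + 204 ≤ TT N t ω} :
        Set (Fin (N + 1) → ℤ × ℤ)).ncard : ℝ) ≤
        1152 * (Real.exp (2 * (K * L ^ p)) * cn N) := by
      calc _ ≤ (4 : ℝ) ^ r * (({ω | SW N ω ∧ 294912 * r + 204 ≤ TT N t ω} :
            Set (Fin (N + 1) → ℤ × ℤ)).ncard : ℝ) :=
              mul_le_mul_of_nonneg_right h6 (Nat.cast_nonneg _)
        _ ≤ 1152 * ((cn t : ℝ) * cn (N - t)) := h2
        _ ≤ _ := mul_le_mul_of_nonneg_left h5 (by norm_num)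
    calc (({ω | SW N ω ∧ 294912 * r + 204 ≤ TT N t ω} :
        Set (Fin (N + 1) → ℤ × ℤ)).ncard : ℝ)
        = Real.exp (-(r : ℝ)) * (Real.exp r * (({ω | SW N ω ∧ 294912 * r + 204 ≤ TT N t ω} :
          Set (Fin (N + 1) → ℤ × ℤ)).ncard : ℝ)) := by
          rw [← mul_assoc, ← Real.exp_add, neg_add_cancel, Real.exp_zero, one_mul]
      _ ≤ _ := mul_le_mul_of_nonneg_left h7 (Real.exp_pos _).le
  have hsub : ({ω | SW N ω ∧ ∃ t, 294912 * (12 * E + 2 * K + 1) * (L ^ p + x) < TT N t ω} :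
      Set (Fin (N + 1) → ℤ × ℤ)) ⊆
      ((Finset.range (N + 1)).biUnion (fun t =>
        ((SW_finite N).subset (fun ω (hω : ω ∈ ({ω | SW N ω ∧ 294912 * r + 204 ≤ TT N t ω} :
          Set (Fin (N + 1) → ℤ × ℤ))) => hω.1)).toFinset) :
        Finset (Fin (N + 1) → ℤ × ℤ)) := by
    rintro ω ⟨h1, t, ht⟩
    rw [Finset.mem_coe, Finset.mem_biUnion]
    have htN : t ≤ N := by
      by_contra hcon
      rw [TT_zero (by omega) ω, Nat.cast_zero] at ht
      have : 0 ≤ 294912 * (12 * E + 2 * K + 1) * (L ^ p + x) := by positivity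
      linarith
    refine ⟨t, Finset.mem_range.2 (by omega), ?_⟩
    rw [Set.Finite.mem_toFinset]
    refine ⟨h1, ?_⟩
    have h2 : ((294912 * r + 204 : ℕ) : ℝ) ≤ (TT N t ω : ℝ) := by
      push_cast
      exact hthr.trans ht.le
    exact_mod_cast h2
  have hle : (({ω | SW N ω ∧ ∃ t, 294912 * (12 * E + 2 * K + 1) * (L ^ p + x) < TT N t ω} :
      Set (Fin (N + 1) → ℤ × ℤ)).ncard : ℝ) ≤ ∑ t ∈ Finset.range (N + 1),
      (({ω | SW N ω ∧ 294912 * r + 204 ≤ TT N t ω} :
        Set (Fin (N + 1) → ℤ × ℤ)).ncard : ℝ) := by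
    have h1 := (Set.ncard_le_ncard hsub (Finset.finite_toSet _))
    rw [Set.ncard_coe_finset] at h1
    have h2 := h1.trans Finset.card_biUnion_le
    have h3 : ∀ t ∈ Finset.range (N + 1), (((SW_finite N).subset (fun ω
        (hω : ω ∈ ({ω | SW N ω ∧ 294912 * r + 204 ≤ TT N t ω} :
          Set (Fin (N + 1) → ℤ × ℤ))) => hω.1)).toFinset).card =
        ({ω | SW N ω ∧ 294912 * r + 204 ≤ TT N t ω} :
        Set (Fin (N + 1) → ℤ × ℤ)).ncard := by
      intro t _
      exact (Set.ncard_eq_toFinset_card _ _).symm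
    rw [Finset.sum_congr rfl h3] at h2
    exact_mod_cast h2
  refine hle.trans ((Finset.sum_le_sum hone).trans ?_)
  rw [Finset.sum_const, Finset.card_range, nsmul_eq_mul]
  push_cast
  have h8 : Real.exp (-(r : ℝ)) ≤ Real.exp (-y) := Real.exp_le_exp.2 (by linarith)
  have h9 : Real.exp (-y) = Real.exp (-x) * (1152 * ((N : ℝ) + 1))⁻¹ *
      Real.exp (-(2 * (K * L ^ p))) := by
    rw [hy, neg_add, neg_add, Real.exp_add, Real.exp_add, Real.exp_neg (Real.log _),
      Real.exp_log (by positivity)]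
  have hcn := cn_pos N
  calc ((N : ℝ) + 1) * (Real.exp (-(r : ℝ)) * (1152 * (Real.exp (2 * (K * L ^ p)) * cn N)))
      ≤ ((N : ℝ) + 1) * (Real.exp (-y) * (1152 * (Real.exp (2 * (K * L ^ p)) * cn N))) := by
        gcongr
    _ = Real.exp (-x) * (Real.exp (-(2 * (K * L ^ p))) * Real.exp (2 * (K * L ^ p))) *
        ((1152 * ((N : ℝ) + 1))⁻¹ * (1152 * ((N : ℝ) + 1))) * cn N := by
        rw [h9]; ring
    _ = Real.exp (-x) * cn N := by
        rw [← Real.exp_add, neg_add_cancel, Real.exp_zero, inv_mul_cancel₀ (by positivity),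
          mul_one, mul_one]

/-- contacts across the middle of the windows -/
theorem window_mean {p : ℕ} (hp : 1 ≤ p) (hcu : CU p) : ∃ K : ℝ, 0 ≤ K ∧ ∀ s n : ℕ, 2 ≤ s → 2 * s ≤ n →
    ∑ i ∈ Finset.range (n + 1 - 2 * s), ∑ ω ∈ W n, (TT (2 * s) s (pc i (2 * s) ω) : ℝ) ≤
      cn n * (K * n * Real.log s ^ p) := by
  obtain ⟨K, hK, h⟩ := avg2 hcu
  obtain ⟨K', hK', hu⟩ := hcu
  have hcP := one_le_cP p
  refine ⟨294912 * (20 * (3 / 2) ^ p + 4 * K' + 4 * (K * cP p)), by positivity, fun s n hs hn => ?_⟩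
  have hL1 := log_ge hs
  have hone1 := one_le_LP p hs
  have hLP0 := LP_nonneg p s
  set E : ℝ := (3 / 2) ^ p with hE
  have hs' : (2 : ℝ) ≤ s := by exact_mod_cast hs
  have hmu := mu_pos
  have hcn : (0 : ℝ) < cn n := lt_of_lt_of_le one_pos (cn_pos n)
  have hc2 : (0 : ℝ) < cn s := lt_of_lt_of_le one_pos (cn_pos _)
  have hL4 : Real.log ((2 * s : ℕ) : ℝ) ^ p ≤ 2 * cP p * Real.log s ^ p := by
    have := log_mul_pow_le' hp (m := s) (j := 2) hs (by norm_num)
    push_cast at this ⊢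
    linarith
  have hlogc : Real.log (cn s) ≤ s * Real.log H981.mu + K' * Real.log s ^ p := by
    have h4 := Real.log_le_log hc2 (hu s hs s le_rfl)
    rw [Real.log_mul (by positivity) (Real.exp_pos _).ne', Real.log_exp, Real.log_pow] at h4
    exact h4
  have h3 := h (2 * s) n (by omega) hn
    (fun _ v => (2 : ℝ) ^ ((TT (2 * s) s v - 204) / 294912))
    (fun i v => by positivity) (fun i hi ω hω => by positivity)
    (9 + 2 * K' * Real.log s ^ p) (by positivity) (by
      intro i hi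
      have h5 : 0 < ∑ v ∈ W (2 * s), (2 : ℝ) ^ ((TT (2 * s) s v - 204) / 294912) :=
        Finset.sum_pos (fun v _ => by positivity) (W_nonempty _)
      have h6 := Real.log_le_log h5 (exp_moment s)
      rw [Real.log_mul (by norm_num) (by positivity), Real.log_pow] at h6
      have h7 : Real.log 2305 ≤ 8.4 := by
        calc Real.log 2305 ≤ Real.log (2 ^ 12) := Real.log_le_log (by norm_num) (by norm_num)
          _ = 12 * Real.log 2 := by rw [Real.log_pow]; norm_num
          _ ≤ 8.4 := by have := log_two_bd.2; linarith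
      have e4 : ((2 * s : ℕ) : ℝ) * Real.log H981.mu = 2 * (s * Real.log H981.mu) := by
        push_cast; ring
      have e2 : (((2 : ℕ)) : ℝ) = 2 := by norm_num
      rw [e2] at h6
      rw [e4]
      linarith)
  set X := fun i ω => (TT (2 * s) s (pc (n := n) i (2 * s) ω) - 204) / 294912 with hX
  have h8 : ∀ i ω, (TT (2 * s) s (pc (n := n) i (2 * s) ω) : ℝ) ≤
      294912 / Real.log 2 * Real.log ((2 : ℝ) ^ X i ω) + 300000 := by
    intro i ω
    rw [Real.log_pow]
    have hl2 := log_two_bd.1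
    have e : 294912 / Real.log 2 * (X i ω * Real.log 2) = 294912 * (X i ω : ℝ) := by
      field_simp
    rw [e]
    have h9 : TT (2 * s) s (pc (n := n) i (2 * s) ω) ≤ 294912 * X i ω + 300000 := by
      rw [hX]
      simp only
      set y := TT (2 * s) s (pc (n := n) i (2 * s) ω)
      have := Nat.lt_mul_div_succ (y - 204) (show 0 < 294912 by norm_num)
      omega
    exact_mod_cast h9
  have h11 : ∑ i ∈ Finset.range (n + 1 - 2 * s), ∑ ω ∈ W n,
        (TT (2 * s) s (pc i (2 * s) ω) : ℝ) ≤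
      294912 / Real.log 2 * ∑ i ∈ Finset.range (n + 1 - 2 * s), ∑ ω ∈ W n,
        Real.log ((2 : ℝ) ^ X i ω) + n * (cn n * 300000) := by
    calc _ ≤ ∑ i ∈ Finset.range (n + 1 - 2 * s), ∑ ω ∈ W n,
          (294912 / Real.log 2 * Real.log ((2 : ℝ) ^ X i ω) + 300000) :=
          Finset.sum_le_sum (fun i _ => Finset.sum_le_sum (fun ω _ => h8 i ω))
      _ = 294912 / Real.log 2 * ∑ i ∈ Finset.range (n + 1 - 2 * s), ∑ ω ∈ W n,
        Real.log ((2 : ℝ) ^ X i ω) + ((n + 1 - 2 * s : ℕ) : ℝ) * (cn n * 300000) := by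
          simp only [Finset.sum_add_distrib, ← Finset.mul_sum, Finset.sum_const, nsmul_eq_mul,
            Finset.card_range, card_W]
          ring
      _ ≤ _ := by
          have : (((n + 1 - 2 * s : ℕ)) : ℝ) ≤ n := by
            exact_mod_cast (show n + 1 - 2 * s ≤ n by omega)
          gcongr
  refine h11.trans ?_
  have h13 : 294912 / Real.log 2 * ∑ i ∈ Finset.range (n + 1 - 2 * s), ∑ ω ∈ W n,
        Real.log ((2 : ℝ) ^ X i ω) ≤ 294912 / Real.log 2 * (cn n * (n * (9 + 2 * K' *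
        Real.log s ^ p + K * Real.log ((2 * s : ℕ) : ℝ) ^ p))) := by
    have hl2 := log_two_bd.1
    exact mul_le_mul_of_nonneg_left h3 (by positivity)
  refine (add_le_add_left h13 _).trans ?_
  have h14 : 294912 / Real.log 2 ≤ 294912 * 1.5 := by
    have hl2 := log_two_bd.1
    rw [div_le_iff₀ (by linarith)]
    nlinarith
  have h15 : 9 + 2 * K' * Real.log s ^ p + K * Real.log ((2 * s : ℕ) : ℝ) ^ p ≤
      (9 * E + 2 * K' + 2 * (K * cP p)) * Real.log s ^ p := by
    have e2 := mul_le_mul_of_nonneg_left hL4 hK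
    have e5 : (9 * E + 2 * K' + 2 * (K * cP p)) * Real.log s ^ p = 9 * (E * Real.log s ^ p) +
      2 * K' * Real.log s ^ p + K * (2 * cP p * Real.log s ^ p) := by ring
    rw [e5]
    linarith
  calc 294912 / Real.log 2 * (cn n * (n * (9 + 2 * K' *
        Real.log s ^ p + K * Real.log ((2 * s : ℕ) : ℝ) ^ p))) +
        n * (cn n * 300000)
      ≤ 294912 * 1.5 * (cn n * (n * ((9 * E + 2 * K' + 2 * (K * cP p)) * Real.log s ^ p))) +
        n * (cn n * (294912 * 1.5 * (E * Real.log s ^ p))) := by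
        have : (0 : ℝ) ≤ Real.log ((2 * s : ℕ) : ℝ) := Real.log_natCast_nonneg _
        gcongr
        nlinarith
    _ = 294912 * (1.5 * (10 * E + 2 * K' + 2 * (K * cP p))) * (cn n * n * Real.log s ^ p) := by ring
    _ ≤ 294912 * (20 * E + 4 * K' + 4 * (K * cP p)) * (cn n * n * Real.log s ^ p) := by
        have h16 : (0 : ℝ) ≤ cn n * n * Real.log s ^ p := by positivity
        refine mul_le_mul_of_nonneg_right ?_ h16
        have h17 : 0 ≤ E := by positivity
        have h18 : 0 ≤ K * cP p := by positivity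
        linarith
    _ = _ := by ring

end Pool.Agent.TH546.SG
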