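import Pool.Agent.TH546.SAW.Loops2

/-! # The uniform bound for the numbers of walks with a general exponent -/

set_option autoImplicit false

namespace Pool.Agent.TH546.SG

open Pool.Agent.TH546.SAW
open Pool.Agent.W840.CT

/-- the uniform upper bound `c_k ≤ μ^k exp (K (log N)^p)` for `k ≤ N` -/
def CU (p : ℕ) : Prop := ∃ K : ℝ, 0 ≤ K ∧ ∀ N : ℕ, 2 ≤ N → ∀ k ≤ N,
    (cn k : ℝ) ≤ H981.mu ^ k * Real.exp (K * Real.log N ^ p)

theorem log_ge {m : ℕ} (hm : 2 ≤ m) : (0.69 : ℝ) < Real.log m := (L_ge hm).1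

/-- `1 ≤ (3/2)^p log^p m` -/
theorem one_le_LP (p : ℕ) {m : ℕ} (hm : 2 ≤ m) : (1 : ℝ) ≤ (3 / 2) ^ p * Real.log m ^ p := by
  rw [← mul_pow]
  apply one_le_pow₀
  have := log_ge hm
  linarith

theorem LP_nonneg (p : ℕ) (m : ℕ) : (0 : ℝ) ≤ Real.log m ^ p :=
  pow_nonneg (Real.log_natCast_nonneg _) _

/-- the constant -/
noncomputable def cP (p : ℕ) : ℝ := (1 + 2 * (p : ℝ)) ^ p

theorem one_le_cP (p : ℕ) : 1 ≤ cP p := by
  unfold cP
  apply one_le_pow₀
  have : (0 : ℝ) ≤ p := Nat.cast_nonneg p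
  linarith

/-- `(1 + (3/2) log R)^p ≤ C R` -/
theorem log_pow_le {p : ℕ} (hp : 1 ≤ p) {R : ℝ} (hR : 1 ≤ R) :
    (1 + 3 / 2 * Real.log R) ^ p ≤ cP p * R := by
  have hp' : (1 : ℝ) ≤ p := by exact_mod_cast hp
  have hR0 : 0 < R := by linarith
  set y := R ^ (1 / (p : ℝ)) with hy
  have hy0 : 0 < y := Real.rpow_pos_of_pos hR0 _
  have hy1 : 1 ≤ y := Real.one_le_rpow hR (by positivity)
  have hyp : y ^ p = R := by
    rw [hy, ← Real.rpow_natCast, ← Real.rpow_mul hR0.le]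
    rw [one_div_mul_cancel (by positivity), Real.rpow_one]
  have h1 : Real.log y ≤ y := by
    have := Real.log_le_sub_one_of_pos hy0
    linarith
  have h2 : Real.log R = p * Real.log y := by
    rw [← hyp, Real.log_pow]
  have h3 : 0 ≤ Real.log R := Real.log_nonneg hR
  have h4 : 1 + 3 / 2 * Real.log R ≤ (1 + 2 * p) * y := by
    rw [h2]
    have : (p : ℝ) * Real.log y ≤ p * y := mul_le_mul_of_nonneg_left h1 (by positivity)
    nlinarith
  calc (1 + 3 / 2 * Real.log R) ^ p ≤ ((1 + 2 * p) * y) ^ p :=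
        pow_le_pow_left₀ (by positivity) h4 p
    _ = _ := by rw [mul_pow, hyp]; rfl

/-- `log^p (R m) ≤ C R log^p m` -/
theorem log_mul_pow_le {p : ℕ} (hp : 1 ≤ p) {R : ℝ} (hR : 1 ≤ R) {m : ℕ} (hm : 2 ≤ m) :
    Real.log (R * m) ^ p ≤ cP p * R * Real.log m ^ p := by
  have hm' : (2 : ℝ) ≤ m := by exact_mod_cast hm
  have hL := log_ge hm
  have hR0 : 0 ≤ Real.log R := Real.log_nonneg hR
  rw [Real.log_mul (by positivity) (by positivity)]
  have h1 : Real.log R + Real.log m ≤ (1 + 3 / 2 * Real.log R) * Real.log m := by nlinarith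
  calc (Real.log R + Real.log m) ^ p ≤ ((1 + 3 / 2 * Real.log R) * Real.log m) ^ p :=
        pow_le_pow_left₀ (by positivity) h1 p
    _ = (1 + 3 / 2 * Real.log R) ^ p * Real.log m ^ p := mul_pow _ _ _
    _ ≤ cP p * R * Real.log m ^ p :=
        mul_le_mul_of_nonneg_right (log_pow_le hp hR) (LP_nonneg p m)

theorem log_mul_pow_le' {p : ℕ} (hp : 1 ≤ p) {m j : ℕ} (hm : 2 ≤ m) (hj : 1 ≤ j) :
    Real.log ((j * m : ℕ) : ℝ) ^ p ≤ cP p * j * Real.log m ^ p := by
  have h := log_mul_pow_le hp (R := j) (by exact_mod_cast hj) hm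
  push_cast
  exact h

/-- the logarithm of a larger number -/
theorem log_ratio_pow {p : ℕ} (hp : 1 ≤ p) {m n : ℕ} (hm : 2 ≤ m) (hmn : m ≤ n) :
    m * Real.log n ^ p ≤ cP p * n * Real.log m ^ p := by
  have hm' : (2 : ℝ) ≤ m := by exact_mod_cast hm
  have hmn' : (m : ℝ) ≤ n := by exact_mod_cast hmn
  have h1 : (n : ℝ) / m * m = n := by field_simp
  have h := log_mul_pow_le hp (R := (n : ℝ) / m) (by rw [le_div_iff₀ (by linarith)]; linarith) hm
  rw [h1] at h
  calc m * Real.log n ^ p ≤ m * (cP p * (n / m) * Real.log m ^ p) :=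
        mul_le_mul_of_nonneg_left h (by positivity)
    _ = _ := by field_simp

/-- the bound for all lengths up to `N` from the bound for one length -/
theorem CU_of {p : ℕ} (hsq : ∃ K : ℝ, 0 ≤ K ∧ ∀ N : ℕ, 2 ≤ N →
    H981.cr' N ≤ H981.mu ^ N * Real.exp (K * Real.log N ^ p)) : CU p := by
  obtain ⟨K, hK, h⟩ := hsq
  obtain ⟨K₀, hK₀, h₀⟩ := cn_upper
  -- for `k < 2` use the old bound at `N = 2`
  have hmu1 : 1 ≤ H981.mu := H981.one_le_mu
  set A := K₀ * Real.log 2 ^ 3 with hA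
  have hA0 : 0 ≤ A := by
    have : 0 ≤ Real.log 2 := Real.log_nonneg (by norm_num)
    positivity
  refine ⟨K + A * (3 / 2) ^ p, by positivity, fun N hN k hk => ?_⟩
  have hN' : (2 : ℝ) ≤ N := by exact_mod_cast hN
  have hLP := LP_nonneg p N
  have h1 := one_le_LP p hN
  rcases Nat.lt_or_ge k 2 with hk2 | hk2
  · have h2 := h₀ 2 le_rfl k (by omega)
    refine h2.trans (mul_le_mul_of_nonneg_left (Real.exp_le_exp.2 ?_) (by positivity))
    push_cast
    have h3 : A * 1 ≤ A * ((3 / 2) ^ p * Real.log N ^ p) := mul_le_mul_of_nonneg_left h1 hA0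
    have h4 : 0 ≤ K * Real.log N ^ p := by positivity
    rw [← hA]
    nlinarith
  · have h2 := h k hk2
    rw [← cn_eq] at h2
    refine h2.trans (mul_le_mul_of_nonneg_left (Real.exp_le_exp.2 ?_) (by positivity))
    have hk' : (2 : ℝ) ≤ k := by exact_mod_cast hk2
    have h3 : Real.log k ^ p ≤ Real.log N ^ p := by
      refine pow_le_pow_left₀ (Real.log_natCast_nonneg _) ?_ p
      exact Real.log_le_log (by linarith) (by exact_mod_cast hk)
    have h4 : 0 ≤ A * (3 / 2) ^ p * Real.log N ^ p := by positivity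
    have h5 := mul_le_mul_of_nonneg_left h3 hK
    linarith

end Pool.Agent.TH546.SG
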