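import Pool.Agent.TH546.SG.Loops2
import Pool.Agent.TH546.SAW.Poly

/-! # Entropy of the pieces of a polygon, general exponent -/

set_option autoImplicit false

namespace Pool.Agent.TH546.SG

open scoped Classical
open Pool.Agent.W840.CT hiding tail_all
open Pool.Agent.TH546.SAW hiding avg avg2 entropy variational transfer window_mean max_mean
  loop_mean far_mean PL_lower poly_avg poly_entropy

/-- the lower bound for the number of polygons -/
def PLo (p : ℕ) : Prop := ∃ K : ℝ, 0 ≤ K ∧ ∀ N : ℕ, 2 ≤ N →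
    H981.mu ^ (2 * N) * Real.exp (-(K * Real.log N ^ p)) ≤ H981.PP N

/-- lower bound for the number of loops -/
theorem PL_lower {p : ℕ} (hlo : PLo p) : ∃ K : ℝ, 0 ≤ K ∧ ∀ N : ℕ, 2 ≤ N →
    H981.mu ^ (2 * N - 1) * Real.exp (-(K * Real.log N ^ p)) ≤ (PL N).card := by
  obtain ⟨K, hK, h⟩ := hlo
  refine ⟨K, hK, fun N hN => ?_⟩
  have h1 := h N hN
  rw [card_PL (by omega)]
  have hmu := H981.one_le_mu
  have h2 : H981.mu ^ (2 * N - 1) ≤ H981.mu ^ (2 * N) := pow_le_pow_right₀ hmu (by omega)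
  have hN' : (2 : ℝ) ≤ N := by exact_mod_cast hN
  have h3 : H981.mu ^ (2 * N - 1) * Real.exp (-(K * Real.log N ^ p)) ≤ H981.PP N :=
    (mul_le_mul_of_nonneg_right h2 (Real.exp_pos _).le).trans h1
  have h4 : 0 < H981.mu ^ (2 * N - 1) * Real.exp (-(K * Real.log N ^ p)) := by
    have := H981.mu_pos
    positivity
  nlinarith

/-- the average inequality for polygons; no average over the starting point is needed -/
theorem poly_avg {p : ℕ} (hp : 1 ≤ p) (hcu : CU p) (hlo : PLo p) : ∃ K : ℝ, 0 ≤ K ∧ ∀ m N : ℕ, 2 ≤ m → m ≤ 2 * N - 1 →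
    ∀ g : (Fin (m + 1) → ℤ × ℤ) → ℝ, (∀ v, 0 ≤ g v) →
    (∀ f ∈ PL N, 0 < g (pp m 0 f)) →
    ∑ f ∈ PL N, Real.log (g (pp m 0 f)) ≤
      (PL N).card * (Real.log (∑ v ∈ W m, g v) - m * Real.log H981.mu +
        K * Real.log m ^ p) := by
  obtain ⟨K1, hK1, hu⟩ := hcu
  obtain ⟨K2, hK2, hl⟩ := PL_lower hlo
  have hcP := one_le_cP p
  refine ⟨2 * K1 + 2 * cP p * K2, by positivity, fun m N hm hmN g hg hpos => ?_⟩
  have hL1 := log_ge hm
  have hLP0 := LP_nonneg p m
  have hN2 : 2 ≤ N := by omega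
  have hN1 : 1 ≤ N := by omega
  have hmu := H981.mu_pos
  have hm' : (2 : ℝ) ≤ m := by exact_mod_cast hm
  set R := (2 * N - 1) / m with hR
  set r := (2 * N - 1) % m with hr
  have hrm : r < m := Nat.mod_lt _ (by omega)
  have hn : 2 * N - 1 = 0 + R * m + r := by
    have := Nat.div_add_mod (2 * N - 1) m
    rw [← hR, ← hr, mul_comm] at this
    omega
  have hR1 : 1 ≤ R := (Nat.le_div_iff_mul_le (by omega)).2 (by omega)
  have hR1' : (1 : ℝ) ≤ R := by exact_mod_cast hR1
  set L := ((PL N).card : ℝ) with hL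
  have hL0 : 0 < L := by
    rw [hL]
    exact_mod_cast (PL_nonempty hN2).card_pos
  set Z := ∑ v ∈ W m, g v with hZ
  have hZ0 : 0 < Z := by
    obtain ⟨f, hf⟩ := PL_nonempty hN2
    exact Finset.sum_pos' (fun v _ => hg v)
      ⟨pp m 0 f, mem_W.2 (pp_mem hN1 hmN ((mem_PL hN1).1 hf)), hpos f hf⟩
  have hk : ∀ k ∈ Finset.range R, 0 + k * m + m ≤ 2 * N - 1 := by
    intro k hk
    rw [Finset.mem_range] at hk
    have : (k + 1) * m ≤ R * m := Nat.mul_le_mul_right _ hk
    rw [add_mul, one_mul] at this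
    omega
  -- the product over the pieces
  have h1 := sum_prod 0 m r (fun _ v => g v) (fun _ v => hg v) R (2 * N - 1) hn
  have h2 : ∑ f ∈ PL N, ∏ k ∈ Finset.range R, g (pc (0 + k * m) m (phi N f)) ≤
      ∑ ω ∈ W (2 * N - 1), ∏ k ∈ Finset.range R, g (pc (0 + k * m) m ω) := by
    rw [← Finset.sum_image (s := PL N) (g := phi N)
      (f := fun ω => ∏ k ∈ Finset.range R, g (pc (0 + k * m) m ω))
      (fun f _ f' _ h => phi_inj hN1 h)]
    refine Finset.sum_le_sum_of_subset_of_nonneg ?_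
      (fun ω _ _ => Finset.prod_nonneg (fun k _ => hg _))
    intro ω hω
    rw [Finset.mem_image] at hω
    obtain ⟨f, hf, rfl⟩ := hω
    exact mem_W.2 (phi_mem hN1 ((mem_PL hN1).1 hf))
  have e3 : ∀ f ∈ PL N, ∀ k ∈ Finset.range R, pc (0 + k * m) m (phi N f) =
      pp m 0 (rt ((0 + k * m : ℕ) : ZMod (2 * N)) f) := by
    intro f _ k hkR
    rw [pc_phi hN1 (hk k hkR), pp_rt]
  have hpos' : ∀ f ∈ PL N, ∀ k ∈ Finset.range R, 0 < g (pc (0 + k * m) m (phi N f)) := by
    intro f hf k hkR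
    rw [e3 f hf k hkR]
    exact hpos _ ((mem_PL hN1).2 (rt_mem ((mem_PL hN1).1 hf)))
  have h4 := jensen (PL N) (PL_nonempty hN2)
    (fun f => ∏ k ∈ Finset.range R, g (pc (0 + k * m) m (phi N f)))
    (fun f hf => Finset.prod_pos (fun k hkR => hpos' f hf k hkR)) (h2.trans h1)
  have h5 : ∑ f ∈ PL N, Real.log (∏ k ∈ Finset.range R, g (pc (0 + k * m) m (phi N f))) =
      R * ∑ f ∈ PL N, Real.log (g (pp m 0 f)) := by
    have e4 : ∀ f ∈ PL N, Real.log (∏ k ∈ Finset.range R, g (pc (0 + k * m) m (phi N f))) =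
        ∑ k ∈ Finset.range R,
          Real.log (g (pp m 0 (rt ((0 + k * m : ℕ) : ZMod (2 * N)) f))) := by
      intro f hf
      rw [Real.log_prod (fun k hkR => (hpos' f hf k hkR).ne')]
      refine Finset.sum_congr rfl (fun k hkR => ?_)
      rw [e3 f hf k hkR]
    rw [Finset.sum_congr rfl e4, Finset.sum_comm]
    have e5 : ∀ k ∈ Finset.range R,
        ∑ f ∈ PL N, Real.log (g (pp m 0 (rt ((0 + k * m : ℕ) : ZMod (2 * N)) f))) =
        ∑ f ∈ PL N, Real.log (g (pp m 0 f)) := fun k _ =>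
      sum_rt hN1 ((0 + k * m : ℕ) : ZMod (2 * N)) (fun f => Real.log (g (pp m 0 f)))
    rw [Finset.sum_congr rfl e5, Finset.sum_const, Finset.card_range, nsmul_eq_mul]
  rw [h5] at h4
  set X := ∑ f ∈ PL N, Real.log (g (pp m 0 f)) with hX
  have hc0 : (0 : ℝ) < cn 0 := lt_of_lt_of_le one_pos (cn_pos 0)
  have hcr : (0 : ℝ) < cn r := lt_of_lt_of_le one_pos (cn_pos r)
  rw [Finset.prod_const, Finset.card_range, Real.log_mul (by positivity) hcr.ne',
    Real.log_mul hc0.ne' (by positivity), Real.log_pow] at h4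
  have hlog0 : Real.log (cn 0) ≤ K1 * Real.log m ^ p := by
    have h6 := Real.log_le_log hc0 (hu m hm 0 (by omega))
    rw [pow_zero, one_mul, Real.log_exp] at h6
    exact h6
  have hlogr : Real.log (cn r) ≤ r * Real.log H981.mu + K1 * Real.log m ^ p := by
    have h6 := Real.log_le_log hcr (hu m hm r hrm.le)
    rw [Real.log_mul (by positivity) (Real.exp_pos _).ne', Real.log_exp, Real.log_pow] at h6
    exact h6
  have hlogL : ((2 * N - 1 : ℕ) : ℝ) * Real.log H981.mu - K2 * Real.log N ^ p ≤ Real.log L := by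
    have h6 := Real.log_le_log (by positivity) (hl N hN2)
    rw [Real.log_mul (by positivity) (Real.exp_pos _).ne', Real.log_exp, Real.log_pow] at h6
    rw [hL]
    linarith
  have hnR : ((2 * N - 1 : ℕ) : ℝ) = R * m + r := by
    rw [hn]; push_cast; ring
  rw [hnR] at hlogL
  have hlogN : Real.log N ^ p ≤ 2 * cP p * R * Real.log m ^ p := by
    rcases Nat.lt_or_ge N m with h6 | h6
    · have h7 : Real.log N ≤ Real.log m :=
        Real.log_le_log (by exact_mod_cast hN1) (by exact_mod_cast h6.le)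
      have h8 : Real.log N ^ p ≤ Real.log m ^ p :=
        pow_le_pow_left₀ (Real.log_natCast_nonneg _) h7 p
      have h9 : (1 : ℝ) ≤ 2 * cP p * R := by nlinarith
      have h10 := mul_le_mul_of_nonneg_right h9 hLP0
      linarith
    · have h7 := log_ratio_pow hp hm h6
      have h8 : (N : ℝ) ≤ 2 * R * m := by
        have h9 : 2 * N - 1 < (R + 1) * m := by
          rw [hn, add_mul, one_mul]; omega
        have h10 : N ≤ 2 * R * m := by
          have : (R + 1) * m ≤ 2 * R * m := Nat.mul_le_mul_right _ (by omega)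
          omega
        exact_mod_cast h10
      have hm0 : (0 : ℝ) < m := by linarith
      have h11 : m * Real.log N ^ p ≤ m * (2 * cP p * R * Real.log m ^ p) := by
        calc m * Real.log N ^ p ≤ cP p * N * Real.log m ^ p := h7
          _ ≤ cP p * (2 * R * m) * Real.log m ^ p := by gcongr
          _ = _ := by ring
      exact le_of_mul_le_mul_left h11 hm0
  have hR0 : (0 : ℝ) < R := by linarith
  have h12 : R * X ≤ R * (L * (Real.log Z - m * Real.log H981.mu +
      (2 * K1 + 2 * cP p * K2) * Real.log m ^ p)) := by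
    refine h4.trans ?_
    have e6 : R * (L * (Real.log Z - m * Real.log H981.mu +
      (2 * K1 + 2 * cP p * K2) * Real.log m ^ p)) = L * (R * (Real.log Z - m * Real.log H981.mu +
      (2 * K1 + 2 * cP p * K2) * Real.log m ^ p)) := by ring
    rw [e6]
    refine mul_le_mul_of_nonneg_left ?_ hL0.le
    have h13 := mul_le_mul_of_nonneg_left hlogN hK2
    have h14 : 2 * K1 * Real.log m ^ p ≤ R * (2 * K1 * Real.log m ^ p) := by
      have : 0 ≤ 2 * K1 * Real.log m ^ p := by positivity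
      nlinarith
    linarith
  exact le_of_mul_le_mul_left h12 hR0

/-- relative entropy of consecutive pieces of a polygon -/
theorem poly_entropy {p : ℕ} (hp : 1 ≤ p) (hcu : CU p) (hlo : PLo p) : ∃ K : ℝ, 0 ≤ K ∧ ∀ m j N : ℕ, 2 ≤ m → 1 ≤ j → j * m ≤ 2 * N - 1 →
    ∑ v ∈ W (j * m), plaw N (j * m) v * Real.log (plaw N (j * m) v * (cn m : ℝ) ^ j) ≤
      K * j * Real.log m ^ p := by
  obtain ⟨K, hK, h⟩ := poly_avg hp hcu hlo
  obtain ⟨K', hK', hu⟩ := hcu
  have hcP := one_le_cP p
  refine ⟨K' + cP p * K, by positivity, fun m j N hm hj hjN => ?_⟩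
  have h1 := log_ge hm
  have hLP0 := LP_nonneg p m
  have hj' : (1 : ℝ) ≤ j := by exact_mod_cast hj
  set M := j * m with hM
  have hM2 : 2 ≤ M := by
    have : 1 * m ≤ j * m := Nat.mul_le_mul_right _ hj
    omega
  have hN2 : 2 ≤ N := by omega
  have hL : (0 : ℝ) < (PL N).card := by exact_mod_cast (PL_nonempty hN2).card_pos
  have hcm : (0 : ℝ) < cn m := lt_of_lt_of_le one_pos (cn_pos m)
  have hmu := H981.mu_pos
  have h3 := h M N hM2 hjN (fun v => plaw N M v) (fun v => plaw_nonneg _ _ _) (by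
    intro f hf
    show 0 < plaw N M (pp M 0 f)
    unfold plaw
    refine div_pos ?_ hL
    rw [Nat.cast_pos, Finset.card_pos]
    exact ⟨f, Finset.mem_filter.2 ⟨hf, rfl⟩⟩)
  have hlogc : Real.log (cn m) ≤ m * Real.log H981.mu + K' * Real.log m ^ p := by
    have h4 := Real.log_le_log hcm (hu m hm m le_rfl)
    rw [Real.log_mul (by positivity) (Real.exp_pos _).ne', Real.log_exp, Real.log_pow] at h4
    exact h4
  have h5 : ∑ v ∈ W M, plaw N M v * Real.log (plaw N M v * (cn m : ℝ) ^ j) =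
      (∑ f ∈ PL N, Real.log (plaw N M (pp M 0 f))) / (PL N).card + j * Real.log (cn m) := by
    have e1 : ∀ v ∈ W M, plaw N M v * Real.log (plaw N M v * (cn m : ℝ) ^ j) =
        plaw N M v * Real.log (plaw N M v) + plaw N M v * (j * Real.log (cn m)) := by
      intro v _
      rcases eq_or_ne (plaw N M v) 0 with h0 | h0
      · rw [h0]; simp
      · rw [Real.log_mul h0 (by positivity), Real.log_pow]
        ring
    rw [Finset.sum_congr rfl e1, Finset.sum_add_distrib,
      sum_plaw_mul (by omega) hjN (fun v => Real.log (plaw N M v)), ← Finset.sum_mul,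
      sum_plaw hN2 hjN, one_mul]
  rw [h5]
  rw [sum_plaw hN2 hjN, Real.log_one, zero_sub] at h3
  have h6 : (∑ f ∈ PL N, Real.log (plaw N M (pp M 0 f))) / (PL N).card ≤
      -(M * Real.log H981.mu) + K * Real.log M ^ p := by
    rw [div_le_iff₀ hL, mul_comm _ ((PL N).card : ℝ)]
    exact h3
  have h7 : Real.log M ^ p ≤ cP p * j * Real.log m ^ p := log_mul_pow_le' hp hm hj
  have h8 := mul_le_mul_of_nonneg_left h7 hK
  have h9 : j * Real.log (cn m) ≤ j * (m * Real.log H981.mu + K' * Real.log m ^ p) :=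
    mul_le_mul_of_nonneg_left hlogc (by linarith)
  have h10 : (M : ℝ) * Real.log H981.mu = j * (m * Real.log H981.mu) := by
    rw [hM]; push_cast; ring
  linarith



end Pool.Agent.TH546.SG
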